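import Pool.Agent.Q146.HC.Fam2

set_option autoImplicit false

/-!
# Bicentric quadrilaterals with the same Dirichlet spectrum are congruent

A convex quadrilateral is bicentric if it has an inscribed and a circumscribed circle, that is, if it
is circumscribed about a circle and its opposite angles add up to `π`.
-/

open Pool.Agent.W780.PG (IsConvexPolygon region ang)
open Pool.Agent.Y289.HI (Circ)
open Pool.Agent.Q146.HC (MeanEq)

namespace Pool.Agent.Results.MP_2805c2_an.BicentricQuadrilaterals

/-- `p 0, …, p 3` and `q 0, …, q 3` are the vertices of two convex quadrilaterals, `region p` and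
`region q`, in counterclockwise order. -/
theorem result (p q : Fin (1 + 3) → ℂ) (hp : IsConvexPolygon p) (hq : IsConvexPolygon q)
    (hcp : Circ p) (hcq : Circ q) (hp0 : ang p 0 + ang p 2 = Real.pi)
    (hq0 : ang q 0 + ang q 2 = Real.pi) (h : MeanEq (region p) (region q)) :
    ∃ φ : ℂ ≃ᵢ ℂ, φ '' region p = region q :=
  Pool.Agent.Q146.HC.bicentric hp hq hcp hcq h hp0 hq0

end Pool.Agent.Results.MP_2805c2_an.BicentricQuadrilaterals
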