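import Pool.Agent.Q146.HC.Mult

set_option autoImplicit false

/-!
# Circumscribed quadrilaterals with the same Dirichlet spectrum

If two convex quadrilaterals with inscribed circles have the same Dirichlet spectrum, then they have
the same angles, or the differences of their ordered angles alternate in sign. In particular two
kites in both of which the two equal opposite angles are the largest angles (or in both the smallest,
or in both in the middle) are congruent if they are isospectral.
-/

open Pool.Agent.W780.PG (IsConvexPolygon region ang)
open Pool.Agent.Y289.HI (Circ)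
open Pool.Agent.Q146.HC (MeanEq angles lst KiteType)

namespace Pool.Agent.Results.MP_2805c2_an.CircumscribedQuadrilaterals

/-- `p 0, …, p 3` and `q 0, …, q 3` are the vertices of two convex quadrilaterals, `region p` and
`region q`, in counterclockwise order; `lst (angles p) i`, `i = 0, …, 3`, are the angles in increasing
order. -/
theorem result (p q : Fin (1 + 3) → ℂ) (hp : IsConvexPolygon p) (hq : IsConvexPolygon q)
    (hcp : Circ p) (hcq : Circ q) (h : MeanEq (region p) (region q)) :
    (angles p = angles q ∨
      (lst (angles p) 0 < lst (angles q) 0 ∧ lst (angles q) 1 < lst (angles p) 1 ∧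
        lst (angles p) 2 < lst (angles q) 2 ∧ lst (angles q) 3 < lst (angles p) 3) ∨
      (lst (angles q) 0 < lst (angles p) 0 ∧ lst (angles p) 1 < lst (angles q) 1 ∧
        lst (angles q) 2 < lst (angles p) 2 ∧ lst (angles p) 3 < lst (angles q) 3)) ∧
    ∀ t : Fin 3, KiteType p t → KiteType q t → ∃ φ : ℂ ≃ᵢ ℂ, φ '' region p = region q := by
  refine ⟨?_, fun t h1 h2 => Pool.Agent.Q146.HC.kite hp hq hcp hcq h t h1 h2⟩
  rw [← Pool.Agent.Q146.HC.angs_eq hp, ← Pool.Agent.Q146.HC.angs_eq hq]
  rcases Pool.Agent.Q146.HC.quad hp hq hcp hcq h with h1 | h1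
  · exact Or.inl (Pool.Agent.Q146.HC.angles_of_angs hp hq h1)
  · exact Or.inr h1

end Pool.Agent.Results.MP_2805c2_an.CircumscribedQuadrilaterals
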