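import Pool.Agent.Q146.HC.Fam2

set_option autoImplicit false

/-!
# A circumscribed isosceles trapezoid among all inscribed quadrilaterals

An isosceles trapezoid with an inscribed circle is determined by its Dirichlet spectrum among all
convex quadrilaterals with a circumscribed circle.
-/

open Pool.Agent.W780.PG (IsConvexPolygon region ang)
open Pool.Agent.Y289.HI (Circ)
open Pool.Agent.Q146.HC (MeanEq)

namespace Pool.Agent.Results.MP_2805c2_an.TrapezoidAmongInscribed

/-- `p 0, …, p 3` and `q 0, …, q 3` are the vertices of two convex quadrilaterals, `region p` and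
`region q`, in counterclockwise order. -/
theorem result (p q : Fin (1 + 3) → ℂ) (hp : IsConvexPolygon p) (hq : IsConvexPolygon q)
    (hcp : Circ p) (hp0 : ang p 0 = ang p 1) (hp2 : ang p 2 = ang p 3)
    (hq0 : ang q 0 + ang q 2 = Real.pi) (h : MeanEq (region p) (region q)) :
    ∃ φ : ℂ ≃ᵢ ℂ, φ '' region p = region q :=
  Pool.Agent.Q146.HC.trapezoid hp hq hcp h hp0 hp2 hq0

end Pool.Agent.Results.MP_2805c2_an.TrapezoidAmongInscribed
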